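import Mathlib
import Pool.Agent.helper7.OC.Defs

/-!
# Repulsion of quadratic symbols that correlate with the primes of a short range

Duality with the Selberg weights `(∑ λ_d)²` in place of the primes.
-/

set_option autoImplicit false

open Finset

namespace Pool.Agent.helper7.OC

namespace BB2

/-! ### Selberg weights -/

/-- The squarefree numbers up to `z`. -/
def sf (z : ℕ) : Finset ℕ := (Icc 1 z).filter Squarefree

lemma mem_sf (z r : ℕ) : r ∈ sf z ↔ 1 ≤ r ∧ r ≤ z ∧ Squarefree r := by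
  rw [sf, mem_filter, mem_Icc, and_assoc]

noncomputable def LL (z : ℕ) : ℝ := ∑ r ∈ sf z, 1 / (Nat.totient r : ℝ)

noncomputable def lam (z d : ℕ) : ℝ :=
  (ArithmeticFunction.moebius d : ℝ) * d / LL z * ∑ r ∈ (sf z).filter (d ∣ ·), 1 / (Nat.totient r : ℝ)

lemma sum_sqfree_ge (z : ℕ) : ∑ n ∈ Icc 1 z, (1 : ℝ) / n ≤ 2 * ∑ r ∈ sf z, (1 : ℝ) / r := by
  classical
  have hex : ∀ n : ℕ, ∃ p : ℕ × ℕ, p.1 ^ 2 * p.2 = n ∧ Squarefree p.2 := by
    intro n
    obtain ⟨a, b, h1, h2⟩ := Nat.sq_mul_squarefree n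
    exact ⟨(b, a), h1, h2⟩
  choose f hf1 hf2 using hex
  have hinj : Set.InjOn f (Icc 1 z : Finset ℕ) := by
    intro a _ b _ h
    rw [← hf1 a, ← hf1 b, h]
  have h1 : ∑ n ∈ Icc 1 z, (1 : ℝ) / n = ∑ p ∈ (Icc 1 z).image f, 1 / ((p.1 : ℝ) ^ 2 * p.2) := by
    rw [sum_image hinj]
    refine sum_congr rfl fun n _ => ?_
    rw [← Nat.cast_pow, ← Nat.cast_mul, hf1]
  have h2 : (Icc 1 z).image f ⊆ Icc 1 z ×ˢ sf z := by
    intro p hp
    rw [mem_image] at hp
    obtain ⟨n, hn, rfl⟩ := hp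
    rw [mem_Icc] at hn
    have h3 := hf1 n
    have ha : (f n).1 ≠ 0 := by
      intro h0
      rw [h0] at h3
      simp at h3
      omega
    have hb : (f n).2 ≠ 0 := by
      intro h0
      rw [h0] at h3
      simp at h3
      omega
    have ha1 : (f n).1 ≤ (f n).1 ^ 2 * (f n).2 := by
      calc (f n).1 ≤ (f n).1 ^ 2 := Nat.le_self_pow (by norm_num) _
        _ ≤ (f n).1 ^ 2 * (f n).2 := Nat.le_mul_of_pos_right _ (Nat.pos_of_ne_zero hb)
    have hb1 : (f n).2 ≤ (f n).1 ^ 2 * (f n).2 :=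
      Nat.le_mul_of_pos_left _ (by positivity)
    rw [mem_product, mem_Icc, mem_sf]
    exact ⟨⟨Nat.pos_of_ne_zero ha, by omega⟩, Nat.pos_of_ne_zero hb, by omega, hf2 n⟩
  have h3 : ∑ p ∈ Icc 1 z ×ˢ sf z, 1 / ((p.1 : ℝ) ^ 2 * p.2)
      = (∑ b ∈ Icc 1 z, ((b : ℝ) ^ 2)⁻¹) * ∑ r ∈ sf z, (1 : ℝ) / r := by
    rw [sum_product, sum_mul_sum]
    refine sum_congr rfl fun b _ => sum_congr rfl fun r _ => ?_
    rw [one_div, mul_inv, one_div]
  have h4 : ∑ b ∈ Icc 1 z, ((b : ℝ) ^ 2)⁻¹ ≤ 2 := by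
    have h5 := sum_Ioo_inv_sq_le (α := ℝ) 0 (z + 1)
    have h6 : Ioo 0 (z + 1) = Icc 1 z := by
      ext x
      rw [mem_Ioo, mem_Icc]
      omega
    rw [h6] at h5
    simpa using h5
  rw [h1]
  calc ∑ p ∈ (Icc 1 z).image f, 1 / ((p.1 : ℝ) ^ 2 * p.2)
      ≤ ∑ p ∈ Icc 1 z ×ˢ sf z, 1 / ((p.1 : ℝ) ^ 2 * p.2) :=
        sum_le_sum_of_subset_of_nonneg h2 (fun _ _ _ => by positivity)
    _ = _ := h3
    _ ≤ _ := mul_le_mul_of_nonneg_right h4 (sum_nonneg fun _ _ => by positivity)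

lemma LL_ge (z : ℕ) : Real.log (z + 1) ≤ 2 * LL z := by
  have h1 : Real.log (z + 1) ≤ ∑ n ∈ Icc 1 z, (1 : ℝ) / n := by
    have h := log_add_one_le_harmonic z
    rw [harmonic_eq_sum_Icc] at h
    push_cast at h
    simpa [one_div] using h
  refine h1.trans ((sum_sqfree_ge z).trans ?_)
  refine mul_le_mul_of_nonneg_left ?_ (by norm_num)
  refine sum_le_sum fun r hr => ?_
  rw [mem_sf] at hr
  have : (0 : ℝ) < Nat.totient r := by exact_mod_cast Nat.totient_pos.mpr (by omega)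
  exact one_div_le_one_div_of_le this (by exact_mod_cast Nat.totient_le r)

lemma LL_pos (z : ℕ) (hz : 1 ≤ z) : 0 < LL z := by
  have h1 := LL_ge z
  have h2 : 0 < Real.log ((z : ℝ) + 1) := Real.log_pos (by
    have : (1 : ℝ) ≤ z := by exact_mod_cast hz
    linarith)
  linarith

lemma lam_one (z : ℕ) (hz : 1 ≤ z) : lam z 1 = 1 := by
  have h := LL_pos z hz
  rw [lam]
  simp only [ArithmeticFunction.moebius_apply_one, Int.cast_one, Nat.cast_one, mul_one, one_dvd,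
    filter_true]
  change 1 / LL z * LL z = 1
  field_simp

lemma abs_lam_le (z d : ℕ) (hz : 1 ≤ z) : |lam z d| ≤ d := by
  have h := LL_pos z hz
  have h1 : ∑ r ∈ (sf z).filter (d ∣ ·), 1 / (Nat.totient r : ℝ) ≤ LL z :=
    sum_le_sum_of_subset_of_nonneg (filter_subset _ _) (fun _ _ _ => by positivity)
  have h0 : 0 ≤ ∑ r ∈ (sf z).filter (d ∣ ·), 1 / (Nat.totient r : ℝ) :=
    sum_nonneg fun _ _ => by positivity
  have h2 : |((ArithmeticFunction.moebius d : ℤ) : ℝ)| ≤ 1 := by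
    rw [← Int.cast_abs]
    exact_mod_cast ArithmeticFunction.abs_moebius_le_one
  rw [lam, abs_mul, abs_div, abs_mul, abs_of_nonneg h0, abs_of_pos h, Nat.abs_cast, div_mul_eq_mul_div,
    div_le_iff₀ h]
  refine mul_le_mul ?_ h1 h0 (Nat.cast_nonneg d)
  calc |((ArithmeticFunction.moebius d : ℤ) : ℝ)| * d ≤ 1 * d :=
        mul_le_mul_of_nonneg_right h2 (Nat.cast_nonneg d)
    _ = d := one_mul _

/-- the Moebius sum over `f ∣ d ∣ r`. -/
lemma moebius_between (z f r : ℕ) (hr : r ∈ sf z) :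
    ∑ d ∈ (Icc 1 z).filter (fun d => f ∣ d ∧ d ∣ r), (ArithmeticFunction.moebius d : ℤ)
      = if f = r then ArithmeticFunction.moebius r else 0 := by
  rw [mem_sf] at hr
  obtain ⟨hr1, hrz, hrs⟩ := hr
  by_cases hf : f ∣ r
  · obtain ⟨s, rfl⟩ := hf
    have hf0 : 0 < f := Nat.pos_of_ne_zero (by rintro rfl; simp at hr1)
    have hs0 : 0 < s := Nat.pos_of_ne_zero (by rintro rfl; simp at hr1)
    have hcop : Nat.Coprime f s := Nat.coprime_of_squarefree_mul hrs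
    have h1 : (Icc 1 z).filter (fun d => f ∣ d ∧ d ∣ f * s) = s.divisors.image (f * ·) := by
      ext d
      rw [mem_filter, mem_Icc, mem_image]
      constructor
      · rintro ⟨_, ⟨t, rfl⟩, h2⟩
        refine ⟨t, ?_, rfl⟩
        rw [Nat.mem_divisors]
        exact ⟨Nat.dvd_of_mul_dvd_mul_left hf0 h2, hs0.ne'⟩
      · rintro ⟨t, ht, rfl⟩
        rw [Nat.mem_divisors] at ht
        have h3 : f * t ∣ f * s := Nat.mul_dvd_mul_left f ht.1
        have h4 : 0 < t := Nat.pos_of_dvd_of_pos ht.1 hs0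
        exact ⟨⟨Nat.mul_pos hf0 h4, (Nat.le_of_dvd (by omega) h3).trans hrz⟩, dvd_mul_right f t, h3⟩
    rw [h1, sum_image (fun a _ b _ h => Nat.eq_of_mul_eq_mul_left hf0 h)]
    have h2 : ∀ t ∈ s.divisors, (ArithmeticFunction.moebius (f * t) : ℤ)
        = ArithmeticFunction.moebius f * ArithmeticFunction.moebius t := by
      intro t ht
      rw [Nat.mem_divisors] at ht
      exact ArithmeticFunction.isMultiplicative_moebius.map_mul_of_coprime
        (hcop.coprime_dvd_right ht.1)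
    rw [sum_congr rfl h2, ← mul_sum]
    have h3 : ∑ t ∈ s.divisors, (ArithmeticFunction.moebius t : ℤ) = if s = 1 then 1 else 0 := by
      have h4 := ArithmeticFunction.coe_mul_zeta_apply (f := ArithmeticFunction.moebius) (x := s)
      rw [← h4, ArithmeticFunction.moebius_mul_coe_zeta, ArithmeticFunction.one_apply]
    rw [h3]
    by_cases hs1 : s = 1
    · subst hs1
      simp
    · rw [if_neg hs1, if_neg, mul_zero]
      intro h
      apply hs1
      have : f * 1 = f * s := by rw [mul_one]; exact h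
      exact (Nat.eq_of_mul_eq_mul_left hf0 this).symm
  · rw [if_neg (fun h : f = r => hf (h ▸ dvd_refl f))]
    refine sum_eq_zero fun d hd => ?_
    rw [mem_filter] at hd
    exact absurd (hd.2.1.trans hd.2.2) hf

lemma lam_div_sum (z f : ℕ) :
    ∑ d ∈ Icc 1 z, (if f ∣ d then lam z d / d else 0)
      = if f ∈ sf z then (ArithmeticFunction.moebius f : ℝ) / (LL z * Nat.totient f) else 0 := by
  have h1 : ∀ d ∈ Icc 1 z, (if f ∣ d then lam z d / d else 0)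
      = ∑ r ∈ sf z, (1 / LL z) * (1 / (Nat.totient r : ℝ))
        * (if f ∣ d ∧ d ∣ r then (ArithmeticFunction.moebius d : ℝ) else 0) := by
    intro d hd
    rw [mem_Icc] at hd
    have hd0 : (d : ℝ) ≠ 0 := by
      have : 0 < d := by omega
      positivity
    by_cases hfd : f ∣ d
    · rw [if_pos hfd, lam, sum_filter]
      rw [mul_sum, sum_div]
      refine sum_congr rfl fun r _ => ?_
      by_cases hdr : d ∣ r
      · rw [if_pos hdr, if_pos ⟨hfd, hdr⟩]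
        field_simp
      · rw [if_neg hdr, if_neg (fun h => hdr h.2)]
        simp
    · rw [if_neg hfd]
      symm
      refine sum_eq_zero fun r _ => ?_
      rw [if_neg (fun h => hfd h.1), mul_zero]
  rw [sum_congr rfl h1, sum_comm]
  have h2 : ∀ r ∈ sf z, ∑ d ∈ Icc 1 z, (1 / LL z) * (1 / (Nat.totient r : ℝ))
        * (if f ∣ d ∧ d ∣ r then (ArithmeticFunction.moebius d : ℝ) else 0)
      = if r = f then (ArithmeticFunction.moebius f : ℝ) / (LL z * Nat.totient f) else 0 := by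
    intro r hr
    rw [← mul_sum, ← sum_filter]
    have h3 := moebius_between z f r hr
    have h4 : ∑ d ∈ (Icc 1 z).filter (fun d => f ∣ d ∧ d ∣ r), ((ArithmeticFunction.moebius d : ℤ) : ℝ)
        = if f = r then (ArithmeticFunction.moebius r : ℝ) else 0 := by
      have h5 : (((∑ d ∈ (Icc 1 z).filter (fun d => f ∣ d ∧ d ∣ r),
          (ArithmeticFunction.moebius d : ℤ)) : ℤ) : ℝ)
          = ((if f = r then ArithmeticFunction.moebius r else 0 : ℤ) : ℝ) := by rw [h3]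
      push_cast at h5
      exact h5
    rw [h4]
    by_cases h : r = f
    · subst h
      rw [if_pos rfl, if_pos rfl, div_mul_div_comm, one_mul, div_mul_eq_mul_div, one_mul]
    · rw [if_neg h, if_neg (fun h' => h h'.symm), mul_zero]
  rw [sum_congr rfl h2]
  rw [sum_ite_eq']

/-- Selberg's diagonal form. -/
lemma quad (z : ℕ) (hz : 1 ≤ z) :
    ∑ d ∈ Icc 1 z, ∑ e ∈ Icc 1 z, lam z d * lam z e / (Nat.lcm d e : ℝ) = 1 / LL z := by
  have hL := LL_pos z hz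
  have h1 : ∀ d ∈ Icc 1 z, ∀ e ∈ Icc 1 z, lam z d * lam z e / (Nat.lcm d e : ℝ)
      = ∑ f ∈ Icc 1 z, (Nat.totient f : ℝ) * ((if f ∣ d then lam z d / d else 0)
          * (if f ∣ e then lam z e / e else 0)) := by
    intro d hd e he
    rw [mem_Icc] at hd he
    have hd0 : (d : ℝ) ≠ 0 := by
      have : 0 < d := by omega
      positivity
    have he0 : (e : ℝ) ≠ 0 := by
      have : 0 < e := by omega
      positivity
    have hg : ((Nat.gcd d e : ℕ) : ℝ) = ∑ f ∈ Icc 1 z, if f ∣ d ∧ f ∣ e then (Nat.totient f : ℝ) else 0 := by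
      rw [← Nat.sum_totient (Nat.gcd d e), ← sum_filter]
      push_cast
      refine sum_congr ?_ (fun _ _ => rfl)
      ext f
      rw [Nat.mem_divisors, mem_filter, mem_Icc, Nat.dvd_gcd_iff]
      constructor
      · rintro ⟨⟨h2, h3⟩, _⟩
        exact ⟨⟨Nat.pos_of_dvd_of_pos h2 (by omega), (Nat.le_of_dvd (by omega) h2).trans hd.2⟩, h2, h3⟩
      · rintro ⟨_, h2, h3⟩
        exact ⟨⟨h2, h3⟩, (Nat.gcd_pos_of_pos_left _ (by omega)).ne'⟩
    have hlcm : (Nat.lcm d e : ℝ) = d * e / Nat.gcd d e := by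
      rw [eq_div_iff (by
        have : 0 < Nat.gcd d e := Nat.gcd_pos_of_pos_left _ (by omega)
        positivity)]
      rw [mul_comm]
      exact_mod_cast Nat.gcd_mul_lcm d e
    rw [hlcm, div_div_eq_mul_div, hg, mul_sum, sum_div]
    refine sum_congr rfl fun f _ => ?_
    by_cases h2 : f ∣ d
    · by_cases h3 : f ∣ e
      · rw [if_pos ⟨h2, h3⟩, if_pos h2, if_pos h3]
        field_simp
      · rw [if_neg (fun h => h3 h.2), if_neg h3]
        simp
    · rw [if_neg (fun h => h2 h.1), if_neg h2]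
      simp
  rw [sum_congr rfl fun d hd => sum_congr rfl fun e he => h1 d hd e he]
  have h2 : ∑ d ∈ Icc 1 z, ∑ e ∈ Icc 1 z, ∑ f ∈ Icc 1 z, (Nat.totient f : ℝ)
        * ((if f ∣ d then lam z d / d else 0) * (if f ∣ e then lam z e / e else 0))
      = ∑ f ∈ Icc 1 z, (Nat.totient f : ℝ) * (∑ d ∈ Icc 1 z, (if f ∣ d then lam z d / d else 0)) ^ 2 := by
    have h3 : ∀ d ∈ Icc 1 z, ∑ e ∈ Icc 1 z, ∑ f ∈ Icc 1 z, (Nat.totient f : ℝ)
        * ((if f ∣ d then lam z d / d else 0) * (if f ∣ e then lam z e / e else 0))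
        = ∑ f ∈ Icc 1 z, ∑ e ∈ Icc 1 z, (Nat.totient f : ℝ)
        * ((if f ∣ d then lam z d / d else 0) * (if f ∣ e then lam z e / e else 0)) :=
      fun d _ => sum_comm
    rw [sum_congr rfl h3, sum_comm]
    refine sum_congr rfl fun f _ => ?_
    rw [sq, sum_mul_sum, mul_sum]
    refine sum_congr rfl fun d _ => ?_
    rw [mul_sum]
  rw [h2]
  have h3 : ∀ f ∈ Icc 1 z, (Nat.totient f : ℝ) * (∑ d ∈ Icc 1 z, (if f ∣ d then lam z d / d else 0)) ^ 2
      = if Squarefree f then (1 / LL z ^ 2) * (1 / (Nat.totient f : ℝ)) else 0 := by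
    intro f hf
    rw [lam_div_sum]
    rw [mem_Icc] at hf
    have hφ : (0 : ℝ) < Nat.totient f := by exact_mod_cast Nat.totient_pos.mpr (by omega)
    by_cases h : Squarefree f
    · rw [if_pos ((mem_sf z f).mpr ⟨hf.1, hf.2, h⟩), if_pos h]
      have h4 : ((ArithmeticFunction.moebius f : ℤ) : ℝ) ^ 2 = 1 := by
        have := ArithmeticFunction.moebius_sq_eq_one_of_squarefree h
        exact_mod_cast this
      rw [div_pow, h4]
      field_simp
    · rw [if_neg (fun h' => h ((mem_sf z f).mp h').2.2), if_neg h]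
      simp
  rw [sum_congr rfl h3, ← sum_filter, ← mul_sum]
  change 1 / LL z ^ 2 * LL z = 1 / LL z
  field_simp

/-- The weight. -/
noncomputable def W (z n : ℕ) : ℝ := (∑ d ∈ Icc 1 z, if d ∣ n then lam z d else 0) ^ 2

lemma W_nonneg (z n : ℕ) : 0 ≤ W z n := sq_nonneg _

lemma W_prime (z ℓ : ℕ) (hz : 1 ≤ z) (hℓ : ℓ.Prime) (h : z < ℓ) : W z ℓ = 1 := by
  have h1 : ∑ d ∈ Icc 1 z, (if d ∣ ℓ then lam z d else 0) = ∑ d ∈ Icc 1 z, if d = 1 then lam z d else 0 := by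
    refine sum_congr rfl fun d hd => ?_
    rw [mem_Icc] at hd
    by_cases h2 : d = 1
    · rw [if_pos h2, if_pos (h2 ▸ one_dvd ℓ)]
    · rw [if_neg h2, if_neg]
      intro h3
      rcases (Nat.dvd_prime hℓ).mp h3 with h4 | h4
      · exact h2 h4
      · omega
  rw [W, h1, sum_ite_eq', if_pos (mem_Icc.mpr ⟨le_refl 1, hz⟩), lam_one z hz]
  norm_num

lemma W_expand (z N : ℕ) (g : ℕ → ℝ) : ∑ n ∈ Icc 1 N, W z n * g n
    = ∑ d ∈ Icc 1 z, ∑ e ∈ Icc 1 z, lam z d * lam z e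
      * ∑ n ∈ (Icc 1 N).filter (fun n => Nat.lcm d e ∣ n), g n := by
  have h1 : ∀ n ∈ Icc 1 N, W z n * g n = ∑ d ∈ Icc 1 z, ∑ e ∈ Icc 1 z,
      lam z d * lam z e * (if Nat.lcm d e ∣ n then g n else 0) := by
    intro n _
    rw [W, sq, sum_mul_sum, sum_mul]
    refine sum_congr rfl fun d _ => ?_
    rw [sum_mul]
    refine sum_congr rfl fun e _ => ?_
    by_cases h2 : d ∣ n
    · by_cases h3 : e ∣ n
      · rw [if_pos h2, if_pos h3, if_pos (Nat.lcm_dvd h2 h3)]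
      · rw [if_neg h3, if_neg (fun h => h3 ((Nat.dvd_lcm_right d e).trans h))]
        ring
    · rw [if_neg h2, if_neg (fun h => h2 ((Nat.dvd_lcm_left d e).trans h))]
      ring
  rw [sum_congr rfl h1, sum_comm]
  refine sum_congr rfl fun d _ => ?_
  rw [sum_comm]
  refine sum_congr rfl fun e _ => ?_
  rw [← mul_sum, sum_filter]

lemma lam_sum_le (z : ℕ) (hz : 1 ≤ z) : ∑ d ∈ Icc 1 z, |lam z d| ≤ (z : ℝ) ^ 2 := by
  calc ∑ d ∈ Icc 1 z, |lam z d| ≤ ∑ d ∈ Icc 1 z, (z : ℝ) := by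
        refine sum_le_sum fun d hd => ?_
        rw [mem_Icc] at hd
        exact (abs_lam_le z d hz).trans (by exact_mod_cast hd.2)
    _ = (z : ℝ) ^ 2 := by
        rw [sum_const, Nat.card_Icc, nsmul_eq_mul, Nat.add_sub_cancel]
        ring

lemma lam_sum_le' (z : ℕ) (hz : 1 ≤ z) :
    ∑ d ∈ Icc 1 z, ∑ e ∈ Icc 1 z, |lam z d| * |lam z e| ≤ (z : ℝ) ^ 4 := by
  rw [← sum_mul_sum]
  have h := lam_sum_le z hz
  have h0 : 0 ≤ ∑ d ∈ Icc 1 z, |lam z d| := sum_nonneg fun _ _ => abs_nonneg _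
  calc _ ≤ (z : ℝ) ^ 2 * (z : ℝ) ^ 2 := mul_le_mul h h h0 (by positivity)
    _ = _ := by ring

lemma W_small (z N : ℕ) (hz : 1 ≤ z) (g : ℕ → ℝ) (B : ℝ) (hB : 0 ≤ B)
    (h : ∀ D : ℕ, 1 ≤ D → |∑ n ∈ (Icc 1 N).filter (fun n => D ∣ n), g n| ≤ B) :
    |∑ n ∈ Icc 1 N, W z n * g n| ≤ (z : ℝ) ^ 4 * B := by
  rw [W_expand]
  calc |∑ d ∈ Icc 1 z, ∑ e ∈ Icc 1 z, lam z d * lam z e
      * ∑ n ∈ (Icc 1 N).filter (fun n => Nat.lcm d e ∣ n), g n|
      ≤ ∑ d ∈ Icc 1 z, ∑ e ∈ Icc 1 z, |lam z d| * |lam z e| * B := by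
        refine (abs_sum_le_sum_abs _ _).trans (sum_le_sum fun d hd => ?_)
        refine (abs_sum_le_sum_abs _ _).trans (sum_le_sum fun e he => ?_)
        rw [mem_Icc] at hd he
        rw [abs_mul, abs_mul]
        refine mul_le_mul_of_nonneg_left (h _ ?_) (by positivity)
        exact Nat.lcm_pos (by omega) (by omega)
    _ = (∑ d ∈ Icc 1 z, ∑ e ∈ Icc 1 z, |lam z d| * |lam z e|) * B := by
        rw [sum_mul]
        refine sum_congr rfl fun d _ => ?_
        rw [sum_mul]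
    _ ≤ _ := mul_le_mul_of_nonneg_right (lam_sum_le' z hz) hB

lemma card_mult (N D : ℕ) :
    (((Icc 1 N).filter (fun n => D ∣ n)).card : ℝ) = ((N / D : ℕ) : ℝ) := by
  have h : ((Icc 1 N).filter (fun n => D ∣ n)).card = N / D := by
    have := Nat.Ioc_filter_dvd_card_eq_div N D
    rw [← this]
    congr 1
  rw [h]

lemma W_total (z N : ℕ) (hz : 1 ≤ z) : ∑ n ∈ Icc 1 N, W z n ≤ N / LL z + (z : ℝ) ^ 4 := by
  have h0 : ∑ n ∈ Icc 1 N, W z n = ∑ n ∈ Icc 1 N, W z n * (fun _ => (1 : ℝ)) n := by simp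
  rw [h0, W_expand]
  have h1 : ∀ d ∈ Icc 1 z, ∀ e ∈ Icc 1 z, lam z d * lam z e
      * ∑ n ∈ (Icc 1 N).filter (fun n => Nat.lcm d e ∣ n), (fun _ => (1 : ℝ)) n
      ≤ (N : ℝ) * (lam z d * lam z e / (Nat.lcm d e : ℝ)) + |lam z d| * |lam z e| := by
    intro d hd e he
    rw [mem_Icc] at hd he
    have hD : 1 ≤ Nat.lcm d e := Nat.lcm_pos (by omega) (by omega)
    have hDr : (0 : ℝ) < Nat.lcm d e := by exact_mod_cast hD
    rw [sum_const, nsmul_eq_mul, mul_one, card_mult N _]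
    set D := Nat.lcm d e
    have h2 : ((N / D : ℕ) : ℝ) ≤ N / D := Nat.cast_div_le
    have h3 : (N : ℝ) / D < ((N / D : ℕ) : ℝ) + 1 := by
      rw [div_lt_iff₀ hDr]
      have := Nat.lt_mul_div_succ N (show 0 < D from hD)
      have h4 : (N : ℝ) < D * ((N / D : ℕ) + 1) := by exact_mod_cast this
      linarith
    have h4 : lam z d * lam z e * ((N / D : ℕ) : ℝ) - (N : ℝ) * (lam z d * lam z e / D)
        = (lam z d * lam z e) * (((N / D : ℕ) : ℝ) - N / D) := by ring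
    have h5 : |(lam z d * lam z e) * (((N / D : ℕ) : ℝ) - N / D)| ≤ |lam z d| * |lam z e| := by
      rw [abs_mul, abs_mul]
      have h6 : |((N / D : ℕ) : ℝ) - N / D| ≤ 1 := by
        rw [abs_le]
        constructor <;> linarith
      calc _ ≤ |lam z d| * |lam z e| * 1 := mul_le_mul_of_nonneg_left h6 (by positivity)
        _ = _ := mul_one _
    have h6 := (le_abs_self _).trans h5
    linarith
  refine (sum_le_sum fun d hd => sum_le_sum fun e he => h1 d hd e he).trans ?_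
  simp only [sum_add_distrib, ← mul_sum]
  rw [quad z hz]
  have h2 := lam_sum_le' z hz
  simp only [← mul_sum] at h2
  have : (N : ℝ) * (1 / LL z) = N / LL z := by ring
  rw [this]
  linarith

/-! ### Sums of products of two symbols -/

/-- the product of the two symbols -/
def jj (m m' : ℕ) (n : ℕ) : ℤ := jacobiSym (n : ℤ) m * jacobiSym (n : ℤ) m'

lemma jj_mul (m m' a n : ℕ) : jj m m' (a * n) = jj m m' a * jj m m' n := by
  simp only [jj]
  push_cast
  rw [jacobiSym.mul_left, jacobiSym.mul_left]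
  ring

lemma jj_mod (m m' n : ℕ) : jj m m' (n % (m * m')) = jj m m' n := by
  simp only [jj]
  have h1 : jacobiSym ((n % (m * m') : ℕ) : ℤ) m = jacobiSym (n : ℤ) m := by
    rw [jacobiSym.mod_left, jacobiSym.mod_left (n : ℤ) m]
    congr 1
    rw [← Int.natCast_mod, ← Int.natCast_mod, Nat.mod_mul_right_mod]
  have h2 : jacobiSym ((n % (m * m') : ℕ) : ℤ) m' = jacobiSym (n : ℤ) m' := by
    rw [jacobiSym.mod_left, jacobiSym.mod_left (n : ℤ) m']
    congr 1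
    rw [← Int.natCast_mod, ← Int.natCast_mod, Nat.mod_mul_left_mod]
  rw [h1, h2]

lemma jac_abs (n m : ℕ) : |((jacobiSym (n : ℤ) m : ℤ) : ℝ)| ≤ 1 := by
  rcases jacobiSym.trichotomy (n : ℤ) m with h | h | h <;> rw [h] <;> simp

lemma jj_abs (m m' n : ℕ) : |((jj m m' n : ℤ) : ℝ)| ≤ 1 := by
  rw [jj]
  push_cast
  rw [abs_mul]
  exact mul_le_one₀ (jac_abs n m) (abs_nonneg _) (jac_abs n m')

/-- a common argument with product `-1`, if a prime divides exactly one of the two moduli. -/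
lemma exists_neg (m m' p : ℕ) (hm : Squarefree m) (ho : Odd m) (hp : p.Prime) (h1 : p ∣ m) (h2 : ¬ p ∣ m') :
    ∃ a : ℕ, jj m m' a = -1 := by
  obtain ⟨m₁, rfl⟩ := h1
  have hp2 : p ≠ 2 := by
    rintro rfl
    exact (Nat.not_odd_iff_even.mpr (even_two_mul m₁)) ho
  have : Fact p.Prime := ⟨hp⟩
  have hcop1 : Nat.Coprime p m₁ := Nat.coprime_of_squarefree_mul hm
  have hcop : Nat.Coprime p (m₁ * m') :=
    Nat.Coprime.mul_right hcop1 ((Nat.Prime.coprime_iff_not_dvd hp).mpr h2)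
  obtain ⟨b, hb⟩ := quadraticChar_exists_neg_one (F := ZMod p) (by
    rw [ZMod.ringChar_zmod_n]
    exact hp2)
  obtain ⟨a, ha1, ha2⟩ := Nat.chineseRemainder hcop b.val 1
  refine ⟨a, ?_⟩
  have h3 : jacobiSym (a : ℤ) p = -1 := by
    rw [← jacobiSym.legendreSym.to_jacobiSym, legendreSym]
    have h4 : ((a : ℤ) : ZMod p) = b := by
      have h5 := (ZMod.natCast_eq_natCast_iff a b.val p).mpr ha1
      rw [ZMod.natCast_val, ZMod.cast_id'] at h5
      simpa using h5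
    rw [h4, hb]
  have h4 : ∀ d : ℕ, d ∣ m₁ * m' → jacobiSym (a : ℤ) d = 1 := by
    intro d hd
    have h5 : a ≡ 1 [MOD d] := Nat.ModEq.of_dvd hd ha2
    rw [jacobiSym.mod_left]
    have h6 : (a : ℤ) % d = (1 : ℤ) % d := by
      have := (Int.natCast_modEq_iff).mpr h5
      simpa [Int.ModEq] using this
    rw [h6, ← jacobiSym.mod_left, jacobiSym.one_left]
  have : NeZero p := ⟨hp.ne_zero⟩
  have : NeZero m₁ := ⟨by rintro rfl; simp at ho⟩
  rw [jj, jacobiSym.mul_right, h3, h4 m₁ (dvd_mul_right _ _), h4 m' (dvd_mul_left _ _)]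
  norm_num

lemma exists_neg' (m m' : ℕ) (hm : Squarefree m) (ho : Odd m) (hm' : Squarefree m') (ho' : Odd m')
    (hne : m ≠ m') : ∃ a : ℕ, jj m m' a = -1 := by
  by_cases h : ∃ p, p.Prime ∧ p ∣ m ∧ ¬ p ∣ m'
  · obtain ⟨p, hp, h1, h2⟩ := h
    exact exists_neg m m' p hm ho hp h1 h2
  · by_cases h' : ∃ p, p.Prime ∧ p ∣ m' ∧ ¬ p ∣ m
    · obtain ⟨p, hp, h1, h2⟩ := h'
      obtain ⟨a, ha⟩ := exists_neg m' m p hm' ho' hp h1 h2
      refine ⟨a, ?_⟩
      rw [← ha, jj, jj, mul_comm]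
    · exfalso
      push Not at h h'
      apply hne
      rw [← Nat.prod_primeFactors_of_squarefree hm, ← Nat.prod_primeFactors_of_squarefree hm']
      refine prod_congr ?_ (fun _ _ => rfl)
      ext p
      rw [Nat.mem_primeFactors, Nat.mem_primeFactors]
      constructor
      · rintro ⟨h1, h2, _⟩
        exact ⟨h1, h p h1 h2, hm'.ne_zero⟩
      · rintro ⟨h1, h2, _⟩
        exact ⟨h1, h' p h1 h2, hm.ne_zero⟩

lemma period_sum (m m' : ℕ) (hm : Squarefree m) (ho : Odd m) (hm' : Squarefree m') (ho' : Odd m')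
    (hne : m ≠ m') : ∑ n ∈ range (m * m'), jj m m' n = 0 := by
  obtain ⟨a, ha⟩ := exists_neg' m m' hm ho hm' ho' hne
  have hM : 0 < m * m' := Nat.mul_pos (Nat.pos_of_ne_zero hm.ne_zero) (Nat.pos_of_ne_zero hm'.ne_zero)
  have hc1 : Nat.Coprime a m := by
    by_contra h
    have h1 : jacobiSym (a : ℤ) m = 0 := by
      have : NeZero m := ⟨hm.ne_zero⟩
      rw [jacobiSym.eq_zero_iff_not_coprime]
      simpa [Nat.coprime_iff_gcd_eq_one, Int.gcd_natCast_natCast] using h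
    rw [jj, h1, zero_mul] at ha
    omega
  have hc2 : Nat.Coprime a m' := by
    by_contra h
    have h1 : jacobiSym (a : ℤ) m' = 0 := by
      have : NeZero m' := ⟨hm'.ne_zero⟩
      rw [jacobiSym.eq_zero_iff_not_coprime]
      simpa [Nat.coprime_iff_gcd_eq_one, Int.gcd_natCast_natCast] using h
    rw [jj, h1, mul_zero] at ha
    omega
  have hc : Nat.Coprime a (m * m') := Nat.Coprime.mul_right hc1 hc2
  have h1 : ∑ n ∈ range (m * m'), jj m m' n = ∑ n ∈ range (m * m'), jj m m' (a * n) := by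
    have hinj : Set.InjOn (fun n => a * n % (m * m')) (range (m * m') : Finset ℕ) := by
      intro x hx y hy hxy
      simp only [coe_range, Set.mem_Iio] at hx hy
      have h2 : a * x ≡ a * y [MOD m * m'] := hxy
      have h3 : x ≡ y [MOD m * m'] := Nat.ModEq.cancel_left_of_coprime (by
        rw [Nat.gcd_comm]; exact hc) h2
      rwa [Nat.ModEq, Nat.mod_eq_of_lt hx, Nat.mod_eq_of_lt hy] at h3
    have himg : (range (m * m')).image (fun n => a * n % (m * m')) = range (m * m') := by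
      refine eq_of_subset_of_card_le ?_ (by rw [card_image_of_injOn hinj])
      intro x hx
      rw [mem_image] at hx
      obtain ⟨n, _, rfl⟩ := hx
      exact mem_range.mpr (Nat.mod_lt _ hM)
    calc ∑ n ∈ range (m * m'), jj m m' n
        = ∑ n ∈ (range (m * m')).image (fun n => a * n % (m * m')), jj m m' n := by rw [himg]
      _ = ∑ n ∈ range (m * m'), jj m m' (a * n % (m * m')) := sum_image hinj
      _ = _ := sum_congr rfl fun n _ => jj_mod m m' (a * n)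
  have h2 : ∑ n ∈ range (m * m'), jj m m' (a * n) = - ∑ n ∈ range (m * m'), jj m m' n := by
    rw [← sum_neg_distrib]
    refine sum_congr rfl fun n _ => ?_
    rw [jj_mul, ha]
    ring
  omega

lemma partial_sum (m m' : ℕ) (hm : Squarefree m) (ho : Odd m) (hm' : Squarefree m') (ho' : Odd m')
    (hne : m ≠ m') (T : ℕ) : |∑ n ∈ range T, ((jj m m' n : ℤ) : ℝ)| ≤ (m * m' : ℕ) := by
  have hM : 0 < m * m' := Nat.mul_pos (Nat.pos_of_ne_zero hm.ne_zero) (Nat.pos_of_ne_zero hm'.ne_zero)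
  have h0 : ∑ n ∈ range (m * m'), ((jj m m' n : ℤ) : ℝ) = 0 := by
    exact_mod_cast congrArg (Int.cast : ℤ → ℝ) (period_sum m m' hm ho hm' ho' hne)
  induction T using Nat.strong_induction_on with
  | _ T ih =>
    by_cases hT : T < m * m'
    · calc |∑ n ∈ range T, ((jj m m' n : ℤ) : ℝ)| ≤ ∑ n ∈ range T, |((jj m m' n : ℤ) : ℝ)| :=
            abs_sum_le_sum_abs _ _
        _ ≤ ∑ n ∈ range T, 1 := sum_le_sum fun n _ => jj_abs m m' n
        _ = T := by simp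
        _ ≤ (m * m' : ℕ) := by exact_mod_cast hT.le
    · push Not at hT
      obtain ⟨S, rfl⟩ := Nat.exists_eq_add_of_le hT
      rw [sum_range_add, h0, zero_add]
      have h1 : ∑ n ∈ range S, ((jj m m' (m * m' + n) : ℤ) : ℝ) = ∑ n ∈ range S, ((jj m m' n : ℤ) : ℝ) := by
        refine sum_congr rfl fun n _ => ?_
        rw [← jj_mod m m' (m * m' + n), Nat.add_mod_left, jj_mod]
      rw [h1]
      exact ih S (by omega)

lemma mult_sum (m m' : ℕ) (hm : Squarefree m) (ho : Odd m) (h1 : 1 < m) (hm' : Squarefree m')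
    (ho' : Odd m') (hne : m ≠ m') (N D : ℕ) (hD : 1 ≤ D) :
    |∑ n ∈ (Icc 1 N).filter (fun n => D ∣ n), ((jj m m' n : ℤ) : ℝ)| ≤ (m * m' : ℕ) := by
  have h2 : (Icc 1 N).filter (fun n => D ∣ n) = (Icc 1 (N / D)).image (D * ·) := by
    ext n
    rw [mem_filter, mem_Icc, mem_image]
    constructor
    · rintro ⟨⟨h3, h4⟩, ⟨t, rfl⟩⟩
      refine ⟨t, ?_, rfl⟩
      rw [mem_Icc]
      constructor
      · rcases Nat.eq_zero_or_pos t with h5 | h5
        · subst h5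
          simp at h3
        · exact h5
      · rw [Nat.le_div_iff_mul_le (by omega)]
        rw [mul_comm]
        exact h4
    · rintro ⟨t, ht, rfl⟩
      rw [mem_Icc] at ht
      have h3 := (Nat.le_div_iff_mul_le (show 0 < D by omega)).mp ht.2
      refine ⟨⟨Nat.mul_pos hD ht.1, ?_⟩, dvd_mul_right D t⟩
      rw [mul_comm]
      exact h3
  rw [h2, sum_image (fun a _ b _ h => Nat.eq_of_mul_eq_mul_left (show 0 < D by omega) h)]
  have h3 : ∑ t ∈ Icc 1 (N / D), ((jj m m' (D * t) : ℤ) : ℝ)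
      = (jj m m' D : ℝ) * ∑ t ∈ range (N / D + 1), ((jj m m' t : ℤ) : ℝ) := by
    have h4 : ∑ t ∈ range (N / D + 1), ((jj m m' t : ℤ) : ℝ) = ∑ t ∈ Icc 1 (N / D), ((jj m m' t : ℤ) : ℝ) := by
      rw [range_eq_Ico, sum_eq_sum_Ico_succ_bot (Nat.succ_pos _)]
      have h5 : ((jj m m' 0 : ℤ) : ℝ) = 0 := by
        rw [jj, Nat.cast_zero, jacobiSym.zero_left h1]
        simp
      rw [h5, zero_add]
      rfl
    rw [h4, mul_sum]
    refine sum_congr rfl fun t _ => ?_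
    rw [jj_mul]
    push_cast
    ring
  rw [h3, abs_mul]
  calc |((jj m m' D : ℤ) : ℝ)| * |∑ t ∈ range (N / D + 1), ((jj m m' t : ℤ) : ℝ)|
      ≤ 1 * (m * m' : ℕ) := mul_le_mul (jj_abs m m' D) (partial_sum m m' hm ho hm' ho' hne _)
        (abs_nonneg _) (by norm_num)
    _ = _ := one_mul _

lemma card_primes (Q : ℕ) (hQ : 2 ≤ Q) (P : Finset ℕ) (hP : ∀ q ∈ P, q.Prime ∧ q ≤ Q) :
    (P.card : ℝ) ≤ 7 * (Q / Real.log Q) := by
  have hQr : (1 : ℝ) < Q := by exact_mod_cast (by omega : 1 < Q)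
  have hlogQ : 0 < Real.log Q := Real.log_pos hQr
  have h1 := Chebyshev.pi_le_log4_mul_div hQr
  rw [Nat.floor_natCast] at h1
  have h2 : P.card ≤ Nat.primeCounting Q := by
    rw [← Nat.primesLE_card_eq_primeCounting]
    refine card_le_card ?_
    intro q hq
    exact Nat.mem_primesLE.mpr ⟨(hP q hq).2, (hP q hq).1⟩
  have h3 : (P.card : ℝ) ≤ Real.log 4 * Q / Real.log √Q + √Q := le_trans (by exact_mod_cast h2) h1
  have h4 : Real.log √(Q : ℝ) = Real.log Q / 2 := Real.log_sqrt (by linarith)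
  rw [h4] at h3
  have h5 : Real.log 4 < 1.4 := by
    have : Real.log 4 = 2 * Real.log 2 := by
      rw [show (4 : ℝ) = 2 ^ 2 by norm_num, Real.log_pow]; norm_num
    have := Real.log_two_lt_d9
    linarith
  have h6 : √(Q : ℝ) ≤ 4 * (Q / Real.log Q) := by
    rw [← mul_div_assoc, le_div_iff₀ hlogQ]
    set s := √(Q : ℝ) with hs
    have hs2 : s ^ 2 = Q := Real.sq_sqrt (by linarith)
    have hs0 : 0 < s := Real.sqrt_pos.mpr (by linarith)
    have hlog : Real.log Q ≤ 2 * s := by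
      rw [← hs2, Real.log_pow]
      have := Real.log_le_sub_one_of_pos hs0
      push_cast
      linarith
    nlinarith
  have h7 : Real.log 4 * Q / (Real.log Q / 2) = 2 * Real.log 4 * (Q / Real.log Q) := by
    field_simp
  rw [h7] at h3
  have h8 : 0 < (Q : ℝ) / Real.log Q := by positivity
  nlinarith

/-- the weighted sum over all integers -/
lemma dual_bound (𝓜 : Finset ℕ) (z N R : ℕ) (hz : 1 ≤ z) (ε : ℕ → ℝ) (hε : ∀ m, |ε m| ≤ 1)
    (h𝓜 : ∀ m ∈ 𝓜, Squarefree m ∧ Odd m ∧ 1 < m ∧ m ≤ R) :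
    ∑ n ∈ Icc 1 N, W z n * (∑ m ∈ 𝓜, ε m * J n m) ^ 2
      ≤ 𝓜.card * (N / LL z + (z : ℝ) ^ 4) + (𝓜.card : ℝ) ^ 2 * ((z : ℝ) ^ 4 * (R : ℝ) ^ 2) := by
  have h1 : ∀ n ∈ Icc 1 N, W z n * (∑ m ∈ 𝓜, ε m * J n m) ^ 2
      = ∑ m ∈ 𝓜, ∑ m' ∈ 𝓜, ε m * ε m' * (W z n * ((jj m m' n : ℤ) : ℝ)) := by
    intro n _
    rw [sq, sum_mul_sum, mul_sum]
    refine sum_congr rfl fun m _ => ?_
    rw [mul_sum]
    refine sum_congr rfl fun m' _ => ?_
    rw [J, J, jj]
    push_cast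
    ring
  rw [sum_congr rfl h1, sum_comm]
  have h2 : ∀ m ∈ 𝓜, ∑ n ∈ Icc 1 N, ∑ m' ∈ 𝓜, ε m * ε m' * (W z n * ((jj m m' n : ℤ) : ℝ))
      = ∑ m' ∈ 𝓜, ε m * ε m' * ∑ n ∈ Icc 1 N, W z n * ((jj m m' n : ℤ) : ℝ) := by
    intro m _
    rw [sum_comm]
    refine sum_congr rfl fun m' _ => ?_
    rw [mul_sum]
  rw [sum_congr rfl h2]
  have hT0 : 0 ≤ N / LL z + (z : ℝ) ^ 4 := by
    have := LL_pos z hz
    positivity
  have h3 : ∀ m ∈ 𝓜, ∀ m' ∈ 𝓜, ε m * ε m' * ∑ n ∈ Icc 1 N, W z n * ((jj m m' n : ℤ) : ℝ)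
      ≤ (if m = m' then N / LL z + (z : ℝ) ^ 4 else 0) + (z : ℝ) ^ 4 * (R : ℝ) ^ 2 := by
    intro m hm m' hm'
    obtain ⟨a1, a2, a3, a4⟩ := h𝓜 m hm
    obtain ⟨b1, b2, b3, b4⟩ := h𝓜 m' hm'
    have h4 : |ε m * ε m' * ∑ n ∈ Icc 1 N, W z n * ((jj m m' n : ℤ) : ℝ)|
        ≤ |∑ n ∈ Icc 1 N, W z n * ((jj m m' n : ℤ) : ℝ)| := by
      rw [abs_mul, abs_mul]
      have : |ε m| * |ε m'| ≤ 1 := mul_le_one₀ (hε m) (abs_nonneg _) (hε m')
      calc _ ≤ 1 * |∑ n ∈ Icc 1 N, W z n * ((jj m m' n : ℤ) : ℝ)| :=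
            mul_le_mul_of_nonneg_right this (abs_nonneg _)
        _ = _ := one_mul _
    refine (le_abs_self _).trans (h4.trans ?_)
    by_cases h : m = m'
    · rw [if_pos h]
      have h5 : |∑ n ∈ Icc 1 N, W z n * ((jj m m' n : ℤ) : ℝ)| ≤ ∑ n ∈ Icc 1 N, W z n := by
        refine (abs_sum_le_sum_abs _ _).trans (sum_le_sum fun n _ => ?_)
        rw [abs_mul, abs_of_nonneg (W_nonneg z n)]
        calc _ ≤ W z n * 1 := mul_le_mul_of_nonneg_left (jj_abs m m' n) (W_nonneg z n)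
          _ = _ := mul_one _
      have h6 := W_total z N hz
      have h7 : 0 ≤ (z : ℝ) ^ 4 * (R : ℝ) ^ 2 := by positivity
      linarith
    · rw [if_neg h, zero_add]
      refine (W_small z N hz (fun n => ((jj m m' n : ℤ) : ℝ)) (m * m' : ℕ) (Nat.cast_nonneg _)
        (fun D hD => mult_sum m m' a1 a2 a3 b1 b2 h N D hD)).trans ?_
      refine mul_le_mul_of_nonneg_left ?_ (by positivity)
      push_cast
      have c1 : (m : ℝ) ≤ R := by exact_mod_cast a4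
      have c2 : (m' : ℝ) ≤ R := by exact_mod_cast b4
      rw [sq]
      exact mul_le_mul c1 c2 (Nat.cast_nonneg _) (Nat.cast_nonneg _)
  refine (sum_le_sum fun m hm => sum_le_sum fun m' hm' => h3 m hm m' hm').trans (le_of_eq ?_)
  have h4 : ∀ m ∈ 𝓜, ∑ m' ∈ 𝓜, ((if m = m' then N / LL z + (z : ℝ) ^ 4 else 0)
      + (z : ℝ) ^ 4 * (R : ℝ) ^ 2) = N / LL z + (z : ℝ) ^ 4 + 𝓜.card * ((z : ℝ) ^ 4 * (R : ℝ) ^ 2) := by
    intro m hm
    rw [sum_add_distrib, sum_ite_eq, if_pos hm, sum_const, nsmul_eq_mul]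
  rw [sum_congr rfl h4, sum_const, nsmul_eq_mul]
  ring

end BB2

open BB2 in
theorem repel (C₁ : ℕ) : ∃ C : ℝ, 0 < C ∧ ∀ (P 𝓜 : Finset ℕ) (V R : ℕ) (η : ℝ), 2 ≤ V →
    (∀ ℓ ∈ P, ℓ.Prime ∧ V < ℓ ∧ ℓ ≤ C₁ * V) → R ^ 4 ≤ V → 0 < η →
    (∀ m ∈ 𝓜, Squarefree m ∧ Odd m ∧ 1 < m ∧ m ≤ R ∧ η ≤ |cs P m|) →
    𝓜.card * η ^ 2 * (Real.log V) ^ 2 ≤ C := by
  refine ⟨7 * C₁ * (64 * C₁ + 16) + 1, by positivity, ?_⟩
  intro P 𝓜 V R η hV hP hR hη h𝓜
  rcases 𝓜.eq_empty_or_nonempty with h0 | ⟨m₀, hm₀⟩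
  · rw [h0, card_empty, Nat.cast_zero, zero_mul, zero_mul]
    positivity
  have hC1 : 1 ≤ C₁ := by
    by_contra h
    have h1 : C₁ = 0 := by omega
    have h2 : P = ∅ := by
      rw [eq_empty_iff_forall_notMem]
      intro ℓ hℓ
      obtain ⟨_, h3, h4⟩ := hP ℓ hℓ
      rw [h1, zero_mul] at h4
      omega
    have h3 := (h𝓜 m₀ hm₀).2.2.2.2
    rw [h2, cs, sum_empty, abs_zero] at h3
    linarith
  -- parameters
  set v : ℝ := (V : ℝ) with hv
  have hv2 : (2 : ℝ) ≤ v := by rw [hv]; exact_mod_cast hV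
  have hv0 : 0 < v := by linarith
  have hv1 : 1 ≤ v := by linarith
  have hlog : 0 < Real.log v := Real.log_pos (by linarith)
  set y : ℝ := v ^ (1 / 32 : ℝ) with hy
  have hy1 : 1 ≤ y := Real.one_le_rpow hv1 (by norm_num)
  have hy0 : 0 < y := by linarith
  have hy32 : y ^ 32 = v := by
    rw [hy, ← Real.rpow_natCast, ← Real.rpow_mul hv0.le]
    norm_num
  set z : ℕ := ⌊y⌋₊ with hz
  have hz1 : 1 ≤ z := Nat.le_floor (by rw [Nat.cast_one]; exact hy1)
  have hzy : (z : ℝ) ≤ y := Nat.floor_le hy0.le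
  have hyz : y ≤ z + 1 := (Nat.lt_floor_add_one y).le
  have hzV : z ≤ V := by
    have h1 : (z : ℝ) ≤ v := by
      refine hzy.trans ?_
      rw [← hy32]
      exact le_self_pow₀ hy1 (by norm_num)
    rw [hv] at h1
    exact_mod_cast h1
  have hL : Real.log v / 64 ≤ LL z := by
    have h1 := LL_ge z
    have h2 : Real.log v = 32 * Real.log y := by
      rw [← hy32, Real.log_pow]
      norm_num
    have h3 : Real.log y ≤ Real.log (z + 1) := Real.log_le_log hy0 hyz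
    linarith
  have hL0 : 0 < LL z := LL_pos z hz1
  -- the sum of squares
  set B : ℝ := (𝓜.card : ℝ) with hB
  have hB0 : 0 < B := by
    rw [hB]
    exact_mod_cast card_pos.mpr ⟨m₀, hm₀⟩
  have hR8 : (R : ℝ) ≤ y ^ 8 := by
    have h1 : (R : ℝ) ^ 4 ≤ (y ^ 8) ^ 4 := by
      rw [← pow_mul, hy32, hv]
      exact_mod_cast hR
    exact le_of_pow_le_pow_left₀ (by norm_num) (by positivity) h1
  have hBR : B ≤ R := by
    have h1 : 𝓜 ⊆ Icc 1 R := by
      intro m hm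
      obtain ⟨_, _, h2, h3, _⟩ := h𝓜 m hm
      exact mem_Icc.mpr ⟨h2.le, h3⟩
    have h2 := card_le_card h1
    rw [Nat.card_Icc, Nat.add_sub_cancel] at h2
    rw [hB]
    exact_mod_cast h2
  set ε : ℕ → ℝ := fun m => if 0 ≤ cs P m then 1 else -1 with hε
  have hε1 : ∀ m, |ε m| ≤ 1 := by
    intro m
    simp only [hε]
    split_ifs <;> simp
  have hεc : ∀ m, ε m * cs P m = |cs P m| := by
    intro m
    simp only [hε]
    split_ifs with h
    · rw [one_mul, abs_of_nonneg h]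
    · rw [abs_of_neg (by linarith)]
      ring
  set G : ℕ → ℝ := fun n => ∑ m ∈ 𝓜, ε m * J n m with hG
  have h1 : B * η ≤ ∑ ℓ ∈ P, 1 / (ℓ : ℝ) * G ℓ := by
    calc B * η = ∑ m ∈ 𝓜, η := by rw [sum_const, nsmul_eq_mul]
      _ ≤ ∑ m ∈ 𝓜, ε m * cs P m := by
          refine sum_le_sum fun m hm => ?_
          rw [hεc]
          exact (h𝓜 m hm).2.2.2.2
      _ = ∑ ℓ ∈ P, 1 / (ℓ : ℝ) * G ℓ := by
          simp only [cs, hG, mul_sum]
          rw [sum_comm]
          refine sum_congr rfl fun ℓ _ => sum_congr rfl fun m _ => ?_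
          ring
  have h2 : (B * η) ^ 2 ≤ (∑ ℓ ∈ P, (1 / (ℓ : ℝ)) ^ 2) * ∑ ℓ ∈ P, G ℓ ^ 2 := by
    refine le_trans ?_ (sum_mul_sq_le_sq_mul_sq P (fun ℓ => 1 / (ℓ : ℝ)) G)
    exact pow_le_pow_left₀ (by positivity) h1 2
  have h3 : ∑ ℓ ∈ P, (1 / (ℓ : ℝ)) ^ 2 ≤ 7 * C₁ / (v * Real.log v) := by
    have h4 : ∀ ℓ ∈ P, (1 / (ℓ : ℝ)) ^ 2 ≤ 1 / v ^ 2 := by
      intro ℓ hℓ
      have h5 : v ≤ ℓ := by
        rw [hv]
        exact_mod_cast (hP ℓ hℓ).2.1.le
      rw [div_pow, one_pow]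
      exact one_div_le_one_div_of_le (by positivity) (pow_le_pow_left₀ hv0.le h5 2)
    have h5 : 2 ≤ C₁ * V := le_trans hV (Nat.le_mul_of_pos_left V hC1)
    have h6 := card_primes (C₁ * V) h5 P (fun q hq => ⟨(hP q hq).1, (hP q hq).2.2⟩)
    have h7 : Real.log v ≤ Real.log ((C₁ * V : ℕ) : ℝ) := by
      refine Real.log_le_log hv0 ?_
      rw [hv]
      exact_mod_cast Nat.le_mul_of_pos_left V hC1
    calc ∑ ℓ ∈ P, (1 / (ℓ : ℝ)) ^ 2 ≤ ∑ ℓ ∈ P, 1 / v ^ 2 := sum_le_sum h4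
      _ = P.card * (1 / v ^ 2) := by rw [sum_const, nsmul_eq_mul]
      _ ≤ (7 * (((C₁ * V : ℕ) : ℝ) / Real.log v)) * (1 / v ^ 2) := by
          refine mul_le_mul_of_nonneg_right (h6.trans ?_) (by positivity)
          refine mul_le_mul_of_nonneg_left ?_ (by norm_num)
          exact div_le_div_of_nonneg_left (Nat.cast_nonneg _) hlog h7
      _ = 7 * C₁ / (v * Real.log v) := by
          push_cast
          rw [← hv]
          field_simp
  have h4 : ∑ ℓ ∈ P, G ℓ ^ 2 ≤ ∑ n ∈ Icc 1 (C₁ * V), W z n * G n ^ 2 := by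
    have h5 : P ⊆ Icc 1 (C₁ * V) := by
      intro ℓ hℓ
      obtain ⟨a, _, c⟩ := hP ℓ hℓ
      exact mem_Icc.mpr ⟨a.one_lt.le, c⟩
    refine le_trans (le_of_eq ?_) (sum_le_sum_of_subset_of_nonneg h5
      (fun n _ _ => mul_nonneg (W_nonneg z n) (sq_nonneg _)))
    refine sum_congr rfl fun ℓ hℓ => ?_
    obtain ⟨a, b, _⟩ := hP ℓ hℓ
    rw [W_prime z ℓ hz1 a (by omega), one_mul]
  have h5 : ∑ n ∈ Icc 1 (C₁ * V), W z n * G n ^ 2
      ≤ B * (((C₁ * V : ℕ) : ℝ) / LL z + (z : ℝ) ^ 4) + B ^ 2 * ((z : ℝ) ^ 4 * (R : ℝ) ^ 2) :=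
    dual_bound 𝓜 z (C₁ * V) R hz1 ε hε1 (fun m hm => by
      obtain ⟨a, b, c, d, _⟩ := h𝓜 m hm
      exact ⟨a, b, c, d⟩)
  -- numerical
  have hz4 : (z : ℝ) ^ 4 ≤ y ^ 4 := pow_le_pow_left₀ (Nat.cast_nonneg _) hzy 4
  have hylog : Real.log v ≤ 8 * y ^ 4 := by
    have h6 : Real.log v = 8 * Real.log (y ^ 4) := by
      rw [← hy32, Real.log_pow, Real.log_pow]
      push_cast
      ring
    have h7 := Real.log_le_sub_one_of_pos (show 0 < y ^ 4 by positivity)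
    linarith
  have h28 : y ^ 28 ≤ 8 * v / Real.log v := by
    rw [le_div_iff₀ hlog]
    calc y ^ 28 * Real.log v ≤ y ^ 28 * (8 * y ^ 4) := mul_le_mul_of_nonneg_left hylog (by positivity)
      _ = 8 * y ^ 32 := by ring
      _ = 8 * v := by rw [hy32]
  have h6 : ∑ n ∈ Icc 1 (C₁ * V), W z n * G n ^ 2 ≤ B * ((64 * C₁ + 16) * v / Real.log v) := by
    refine h5.trans ?_
    have h7 : ((C₁ * V : ℕ) : ℝ) / LL z ≤ 64 * C₁ * v / Real.log v := by
      push_cast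
      rw [← hv, div_le_div_iff₀ hL0 hlog]
      have : C₁ * v * Real.log v ≤ C₁ * v * (64 * LL z) := by
        refine mul_le_mul_of_nonneg_left (by linarith) (by positivity)
      linarith
    have h8 : (z : ℝ) ^ 4 ≤ y ^ 28 := hz4.trans (pow_le_pow_right₀ hy1 (by norm_num))
    have h9 : B * ((z : ℝ) ^ 4 * (R : ℝ) ^ 2) ≤ y ^ 28 := by
      calc B * ((z : ℝ) ^ 4 * (R : ℝ) ^ 2) ≤ y ^ 8 * (y ^ 4 * (y ^ 8) ^ 2) := by
            refine mul_le_mul (hBR.trans hR8) ?_ (by positivity) (by positivity)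
            exact mul_le_mul hz4 (pow_le_pow_left₀ (Nat.cast_nonneg _) hR8 2) (by positivity) (by positivity)
        _ = y ^ 28 := by ring
    have h10 : B ^ 2 * ((z : ℝ) ^ 4 * (R : ℝ) ^ 2) = B * (B * ((z : ℝ) ^ 4 * (R : ℝ) ^ 2)) := by ring
    rw [h10, ← mul_add]
    refine mul_le_mul_of_nonneg_left ?_ hB0.le
    have h11 : (64 * C₁ + 16) * v / Real.log v = 64 * C₁ * v / Real.log v + 8 * v / Real.log v
        + 8 * v / Real.log v := by ring
    rw [h11]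
    linarith
  have h7 : (B * η) ^ 2 ≤ (7 * C₁ / (v * Real.log v)) * (B * ((64 * C₁ + 16) * v / Real.log v)) := by
    refine h2.trans (mul_le_mul h3 (h4.trans h6) (sum_nonneg fun _ _ => sq_nonneg _) (by positivity))
  have h8 : (7 * C₁ / (v * Real.log v)) * (B * ((64 * C₁ + 16) * v / Real.log v))
      = B * (7 * C₁ * (64 * C₁ + 16)) / (Real.log v) ^ 2 := by
    field_simp
  rw [h8, le_div_iff₀ (by positivity)] at h7
  have h9 : B * (B * η ^ 2 * (Real.log v) ^ 2) ≤ B * (7 * C₁ * (64 * C₁ + 16)) := by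
    calc _ = (B * η) ^ 2 * (Real.log v) ^ 2 := by ring
      _ ≤ _ := h7
  have h10 := le_of_mul_le_mul_left h9 hB0
  linarith

end Pool.Agent.helper7.OC
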